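import Mathlib
import Pool.Agent.Q233.TL.Curves

set_option autoImplicit false

/-! # The Sato–Tate law of almost all quadratic twists of a Jacobian surface

Let `C : y² = f(x)`, `f` an integral polynomial of degree `5` or `6`. At a good prime `p` the normalized
`L`-polynomial of the Jacobian surface is `1 + a₁ T + a₂ T² + a₁ T³ + T⁴`. For all but at most
`N ^ (1 - c)` of the integers `D ≠ 0`, `|D| ≤ N`, the following holds for the twist `y² = D f(x)`, for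
all `x` with `(log N) ^ C ≤ x ≤ N ^ c` and all intervals `I₁`, `I₂`: the number of the good primes
`p ≤ x` with `a₁ ∈ I₁` and `a₂ ∈ I₂` is half of the sum of the numbers for the surface itself of
the good primes `p ≤ x` with `(a₁, a₂) ∈ I₁ × I₂` and with `(-a₁, a₂) ∈ I₁ × I₂`, with an error
`√n x ^ ε`, where `n` is this sum.
-/

namespace Pool.Agent.Results.MP_6dc561_nt.AlmostAllTwists

open Finset Polynomial Pool.Agent.W406.TW Pool.Agent.Q233.TL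

/-- `#C(F_p) = p + 1 + S1 f p` for the smooth projective model `C` of `y² = f(x)`, `p` good -/
noncomputable def S1 (f : ℤ[X]) (p : ℕ) : ℤ :=
  ∑ x ∈ range p, jacobiSym (f.eval (x : ℤ)) p +
    if Even f.natDegree then jacobiSym f.leadingCoeff p else 0

open Classical in
/-- `#C(F_{p²}) = p² + 1 + S2 f p` for the smooth projective model `C` of `y² = f(x)`, `p` good -/
noncomputable def S2 (f : ℤ[X]) (p : ℕ) : ℤ :=
  if h : p.Prime then
    letI := Fact.mk h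
    letI := Fintype.ofFinite (GaloisField p 2)
    ∑ x : GaloisField p 2, quadraticChar (GaloisField p 2) (aeval x f) +
      if Even f.natDegree then 1 else 0
  else 0

/-- `p` is an odd prime not dividing the leading coefficient and `f` is separable modulo `p` -/
def Good (f : ℤ[X]) (p : ℕ) : Prop :=
  p.Prime ∧ p ≠ 2 ∧ ¬ (p : ℤ) ∣ f.leadingCoeff ∧ (f.map (Int.castRingHom (ZMod p))).Separable

/-- the coefficient `a₁` of the normalized `L`-polynomial -/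
noncomputable def a₁ (f : ℤ[X]) (p : ℕ) : ℝ := (S1 f p : ℝ) / √(p : ℝ)

/-- the coefficient `a₂` of the normalized `L`-polynomial -/
noncomputable def a₂ (f : ℤ[X]) (p : ℕ) : ℝ := ((S1 f p : ℝ) ^ 2 + S2 f p) / (2 * p)

/-- the number of the good primes `p ≤ x` with `σ a₁ ∈ I₁` and `a₂ ∈ I₂` -/
noncomputable def boxCount (f : ℤ[X]) (σ : ℝ) (I₁ I₂ : Set ℝ) (x : ℕ) : ℕ := by
  classical
  exact ((Icc 1 x).filter fun p : ℕ => Good f p ∧ σ * a₁ f p ∈ I₁ ∧ a₂ f p ∈ I₂).card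

/-! ### twisting -/

lemma S1_twist (f : ℤ[X]) {D : ℤ} (hD : D ≠ 0) (p : ℕ) :
    S1 (C D * f) p = jacobiSym D p * S1 f p := by
  unfold S1
  rw [natDegree_C_mul hD, leadingCoeff_mul, leadingCoeff_C, mul_add, mul_sum]
  congr 1
  · refine sum_congr rfl fun x _ => ?_
    rw [eval_mul, eval_C, jacobiSym.mul_left]
  · split_ifs
    · rw [jacobiSym.mul_left]
    · rw [mul_zero]

lemma quad_one {F : Type} [Field F] [Fintype F] [DecidableEq F] {p : ℕ} [CharP F p] (hp : p.Prime)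
    (hp2 : p ≠ 2) (hcard : Fintype.card F = p ^ 2) {D : ℤ} (hpD : ¬ (p : ℤ) ∣ D) :
    quadraticChar F ((D : ℤ) : F) = 1 := by
  have := Fact.mk hp
  have hchar : ringChar F ≠ 2 := by
    have : ringChar F = p := ringChar.eq F p
    rw [this]; exact hp2
  have hne : ((D : ℤ) : ZMod p) ≠ 0 := by
    intro h
    exact hpD ((ZMod.intCast_zmod_eq_zero_iff_dvd D p).1 h)
  have h1 : (((D : ℤ) : ZMod p)) ^ (p - 1) = 1 := ZMod.pow_card_sub_one_eq_one hne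
  have h2 : (((D : ℤ) : F)) ^ (p - 1) = 1 := by
    have := congrArg (ZMod.castHom (dvd_refl p) F) h1
    rwa [map_pow, map_intCast, map_one] at this
  have h0 : ((D : ℤ) : F) ≠ 0 := by
    intro h
    rw [h, zero_pow (by have := hp.one_lt; omega)] at h2
    exact zero_ne_one h2
  rw [quadraticChar_one_iff_isSquare h0, FiniteField.isSquare_iff hchar h0, hcard]
  obtain ⟨m, hm⟩ := hp.odd_of_ne_two hp2
  have h3 : p ^ 2 / 2 = (p - 1) * (m + 1) := by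
    have h4 : p ^ 2 = 2 * ((p - 1) * (m + 1)) + 1 := by
      subst hm
      simp only [Nat.add_sub_cancel]
      ring
    omega
  rw [h3, pow_mul, h2, one_pow]

lemma S2_twist (f : ℤ[X]) {D : ℤ} (hD : D ≠ 0) {p : ℕ} (hp : p.Prime) (hp2 : p ≠ 2)
    (hpD : ¬ (p : ℤ) ∣ D) : S2 (C D * f) p = S2 f p := by
  classical
  unfold S2
  rw [dif_pos hp, dif_pos hp, natDegree_C_mul hD]
  have := Fact.mk hp
  have hcard : ∀ (_ : Fintype (GaloisField p 2)), Fintype.card (GaloisField p 2) = p ^ 2 := by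
    intro _
    rw [← Nat.card_eq_fintype_card]
    exact GaloisField.card p 2 (by norm_num)
  congr 1
  refine sum_congr rfl fun x _ => ?_
  rw [map_mul, aeval_C, map_mul]
  have h1 : (algebraMap ℤ (GaloisField p 2)) D = ((D : ℤ) : GaloisField p 2) := by simp
  have key := @quad_one (GaloisField p 2) _ (Fintype.ofFinite (GaloisField p 2))
    (fun a b => Classical.propDecidable (a = b)) p _ hp hp2 (hcard _) D hpD
  rw [h1, key, one_mul]

lemma good_twist (f : ℤ[X]) (D : ℤ) {p : ℕ} :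
    Good (C D * f) p ↔ (¬ (p : ℤ) ∣ D ∧ Good f p) := by
  unfold Good
  constructor
  · rintro ⟨h1, h2, h3, h4⟩
    have hpp : Prime (p : ℤ) := Nat.prime_iff_prime_int.1 h1
    rw [leadingCoeff_mul, leadingCoeff_C, hpp.dvd_mul] at h3
    push Not at h3
    refine ⟨h3.1, h1, h2, h3.2, ?_⟩
    rw [Polynomial.map_mul] at h4
    exact h4.of_mul_right
  · rintro ⟨h0, h1, h2, h3, h4⟩
    have hpp : Prime (p : ℤ) := Nat.prime_iff_prime_int.1 h1
    refine ⟨h1, h2, ?_, ?_⟩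
    · rw [leadingCoeff_mul, leadingCoeff_C, hpp.dvd_mul]
      push Not
      exact ⟨h0, h3⟩
    · have := Fact.mk h1
      rw [Polynomial.map_mul, Polynomial.map_C]
      have hne : (Int.castRingHom (ZMod p)) D ≠ 0 := by
        intro h
        exact h0 ((ZMod.intCast_zmod_eq_zero_iff_dvd D p).1 h)
      exact Separable.unit_mul (isUnit_C.2 (isUnit_iff_ne_zero.2 hne)) h4

/-! ### the predicate for the twist law -/

/-- the predicate for the twist law -/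
def Ev (f : ℤ[X]) (a b a' b' e g : ℕ) (p : ℕ) (s : Fin 1 → ℤ) : Prop :=
  Good f p ∧ ((s 0 = 1 ∧ val (a₁ f) a ≤ a₁ f p ∧ a₁ f p ≤ val (a₁ f) b) ∨
    (s 0 = -1 ∧ val (a₁ f) a' ≤ a₁ f p ∧ a₁ f p ≤ val (a₁ f) b')) ∧
  val (a₂ f) e ≤ a₂ f p ∧ a₂ f p ≤ val (a₂ f) g

/-- the conditions agree for the primes up to `x` -/
def Agree (f : ℤ[X]) (I₁ I₂ : Set ℝ) (a b a' b' e g : ℕ) (x : ℕ) : Prop :=
  ∀ p ≤ x, (a₁ f p ∈ I₁ ↔ val (a₁ f) a ≤ a₁ f p ∧ a₁ f p ≤ val (a₁ f) b) ∧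
    (-a₁ f p ∈ I₁ ↔ val (a₁ f) a' ≤ a₁ f p ∧ a₁ f p ≤ val (a₁ f) b') ∧
    (a₂ f p ∈ I₂ ↔ val (a₂ f) e ≤ a₂ f p ∧ a₂ f p ≤ val (a₂ f) g)

lemma exists_agree (f : ℤ[X]) (I₁ I₂ : Set ℝ) (h₁ : I₁.OrdConnected) (h₂ : I₂.OrdConnected) (x : ℕ) :
    ∃ a b a' b' e g : ℕ, a < 2 * (x + 1) + 2 ∧ b < 2 * (x + 1) + 2 ∧ a' < 2 * (x + 1) + 2 ∧
      b' < 2 * (x + 1) + 2 ∧ e < 2 * (x + 1) + 2 ∧ g < 2 * (x + 1) + 2 ∧
      Agree f I₁ I₂ a b a' b' e g x := by
  obtain ⟨a, b, ha, hb, hab⟩ := trace (a₁ f) (x + 1) I₁ h₁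
  have h₁' : (Neg.neg ⁻¹' I₁ : Set ℝ).OrdConnected := by
    constructor
    intro u hu v hv w hw
    exact h₁.out hv hu ⟨neg_le_neg hw.2, neg_le_neg hw.1⟩
  obtain ⟨a', b', ha', hb', hab'⟩ := trace (a₁ f) (x + 1) (Neg.neg ⁻¹' I₁) h₁'
  obtain ⟨e, g, he, hg, heg⟩ := trace (a₂ f) (x + 1) I₂ h₂
  refine ⟨a, b, a', b', e, g, ha, hb, ha', hb', he, hg, fun p hp => ⟨(hab p (by omega)).1,
    ?_, (heg p (by omega)).1⟩⟩
  exact (hab' p (by omega)).1

lemma Sg_one : Sg 1 = {fun _ => 1, fun _ => -1} := by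
  ext s
  unfold Sg
  rw [Fintype.mem_piFinset, mem_insert, mem_singleton]
  constructor
  · intro h
    have h0 := h 0
    rw [mem_insert, mem_singleton] at h0
    rcases h0 with h0 | h0
    · left; funext j; rw [Subsingleton.elim j 0]; exact h0
    · right; funext j; rw [Subsingleton.elim j 0]; exact h0
  · rintro (rfl | rfl) j <;> simp

lemma one_ne : (fun _ : Fin 1 => (1 : ℤ)) ≠ fun _ => -1 := by
  intro h
  have := congrFun h 0
  norm_num at this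

lemma ev_one (f : ℤ[X]) (I₁ I₂ : Set ℝ) (a b a' b' e g x : ℕ) (h : Agree f I₁ I₂ a b a' b' e g x)
    {p : ℕ} (hp : p ≤ x) : Ev f a b a' b' e g p (fun _ => 1) ↔
      (Good f p ∧ 1 * a₁ f p ∈ I₁ ∧ a₂ f p ∈ I₂) := by
  obtain ⟨h1, h2, h3⟩ := h p hp
  unfold Ev
  rw [one_mul, h1, h3]
  constructor
  · rintro ⟨h4, h5, h6⟩
    rcases h5 with h5 | h5
    · exact ⟨h4, h5.2, h6⟩
    · have := h5.1; norm_num at this
  · rintro ⟨h4, h5, h6⟩
    exact ⟨h4, Or.inl ⟨rfl, h5⟩, h6⟩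

lemma ev_neg (f : ℤ[X]) (I₁ I₂ : Set ℝ) (a b a' b' e g x : ℕ) (h : Agree f I₁ I₂ a b a' b' e g x)
    {p : ℕ} (hp : p ≤ x) : Ev f a b a' b' e g p (fun _ => -1) ↔
      (Good f p ∧ (-1) * a₁ f p ∈ I₁ ∧ a₂ f p ∈ I₂) := by
  obtain ⟨h1, h2, h3⟩ := h p hp
  unfold Ev
  rw [neg_one_mul, h2, h3]
  constructor
  · rintro ⟨h4, h5, h6⟩
    rcases h5 with h5 | h5
    · have := h5.1; norm_num at this
    · exact ⟨h4, h5.2, h6⟩
  · rintro ⟨h4, h5, h6⟩
    exact ⟨h4, Or.inr ⟨rfl, h5⟩, h6⟩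

lemma mean_card (f : ℤ[X]) (I₁ I₂ : Set ℝ) (a b a' b' e g x : ℕ)
    (h : Agree f I₁ I₂ a b a' b' e g x) :
    ((X (Ev f a b a' b' e g) x).card : ℝ) ≤ boxCount f 1 I₁ I₂ x + boxCount f (-1) I₁ I₂ x ∧
    mean (Ev f a b a' b' e g) x =
      ((boxCount f 1 I₁ I₂ x : ℝ) + boxCount f (-1) I₁ I₂ x) / 2 := by
  classical
  have h2 : ∀ p, (((Sg 1).filter (fun s => Ev f a b a' b' e g p s)).card : ℝ) =
      (if Ev f a b a' b' e g p (fun _ => 1) then (1 : ℝ) else 0) +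
      (if Ev f a b a' b' e g p (fun _ => -1) then (1 : ℝ) else 0) := by
    intro p
    rw [Sg_one, card_filter]
    push_cast
    rw [sum_pair one_ne]
  constructor
  · unfold boxCount
    have h3 : X (Ev f a b a' b' e g) x ⊆
        (Icc 1 x).filter (fun p : ℕ => Good f p ∧ 1 * a₁ f p ∈ I₁ ∧ a₂ f p ∈ I₂) ∪
        (Icc 1 x).filter (fun p : ℕ => Good f p ∧ (-1) * a₁ f p ∈ I₁ ∧ a₂ f p ∈ I₂) := by
      intro p hp
      obtain ⟨h4, _, _, s, hs, h5⟩ := mem_X.1 hp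
      rw [Sg_one, mem_insert, mem_singleton] at hs
      rw [mem_union, mem_filter, mem_filter, mem_Icc]
      rcases hs with rfl | rfl
      · left
        exact ⟨h4, (ev_one f I₁ I₂ a b a' b' e g x h h4.2).1 h5⟩
      · right
        exact ⟨h4, (ev_neg f I₁ I₂ a b a' b' e g x h h4.2).1 h5⟩
    exact_mod_cast (card_le_card h3).trans (card_union_le _ _)
  · unfold mean boxCount
    rw [pow_one]
    congr 1
    rw [card_filter, card_filter]
    push_cast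
    rw [← sum_add_distrib, sum_filter]
    refine sum_congr rfl fun p hp => ?_
    rw [mem_Icc] at hp
    rw [h2 p]
    have e1 : (if Ev f a b a' b' e g p (fun _ => 1) then (1 : ℝ) else 0) =
        if (Good f p ∧ 1 * a₁ f p ∈ I₁ ∧ a₂ f p ∈ I₂) then 1 else 0 :=
      if_congr (ev_one f I₁ I₂ a b a' b' e g x h hp.2) rfl rfl
    have e2 : (if Ev f a b a' b' e g p (fun _ => -1) then (1 : ℝ) else 0) =
        if (Good f p ∧ (-1) * a₁ f p ∈ I₁ ∧ a₂ f p ∈ I₂) then 1 else 0 :=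
      if_congr (ev_neg f I₁ I₂ a b a' b' e g x h hp.2) rfl rfl
    rw [e1, e2]
    by_cases h1 : p.Prime ∧ p ≠ 2
    · rw [if_pos h1]
    · rw [if_neg h1, if_neg (fun h3 => h1 ⟨h3.1.1, h3.1.2.1⟩),
        if_neg (fun h3 => h1 ⟨h3.1.1, h3.1.2.1⟩), add_zero]

lemma cnt_eq (f : ℤ[X]) (D : Fin 1 → ℤ) (hD : D 0 ≠ 0) (I₁ I₂ : Set ℝ) (a b a' b' e g x : ℕ)
    (h : Agree f I₁ I₂ a b a' b' e g x) :
    Q233.TL.cnt (Ev f a b a' b' e g) D x = boxCount (C (D 0) * f) 1 I₁ I₂ x := by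
  classical
  unfold Q233.TL.cnt boxCount
  congr 1
  ext p
  rw [mem_filter, mem_filter, mem_Icc]
  have hfun : ∀ z : ℤ, jacobiSym (D 0) p = z → (fun j : Fin 1 => jacobiSym (D j) p) = fun _ => z := by
    intro z hz
    funext j
    rw [Subsingleton.elim j 0]; exact hz
  constructor
  · rintro ⟨h1, h2, h3, h4, h5⟩
    refine ⟨h1, ?_⟩
    have h6 : ∀ z : ℤ, jacobiSym (D 0) p = z → a₁ (C (D 0) * f) p = z * a₁ f p := by
      intro z hz
      unfold a₁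
      rw [S1_twist f hD, hz]; push_cast; ring
    have hz2 : jacobiSym (D 0) p = 1 ∨ jacobiSym (D 0) p = -1 := jac_pm h2 (h4 0)
    have h7 : a₂ (C (D 0) * f) p = a₂ f p := by
      unfold a₂
      rw [S2_twist f hD h2 h3 (h4 0), S1_twist f hD]
      rcases hz2 with hz | hz <;> rw [hz] <;> push_cast <;> ring
    rcases hz2 with hz | hz
    · rw [hfun 1 hz, ev_one f I₁ I₂ a b a' b' e g x h h1.2] at h5
      refine ⟨(good_twist f (D 0)).2 ⟨h4 0, h5.1⟩, ?_, by rw [h7]; exact h5.2.2⟩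
      rw [h6 1 hz]
      have := h5.2.1
      simpa using this
    · rw [hfun (-1) hz, ev_neg f I₁ I₂ a b a' b' e g x h h1.2] at h5
      refine ⟨(good_twist f (D 0)).2 ⟨h4 0, h5.1⟩, ?_, by rw [h7]; exact h5.2.2⟩
      rw [h6 (-1) hz]
      have := h5.2.1
      simpa using this
  · rintro ⟨h1, h8, h9, h10⟩
    obtain ⟨hpD, hgood⟩ := (good_twist f (D 0)).1 h8
    have h2 := hgood.1
    have h3 := hgood.2.1
    have h4 : ∀ j, ¬ (p : ℤ) ∣ D j := by
      intro j; rw [Subsingleton.elim j 0]; exact hpD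
    have h6 : ∀ z : ℤ, jacobiSym (D 0) p = z → a₁ (C (D 0) * f) p = z * a₁ f p := by
      intro z hz
      unfold a₁
      rw [S1_twist f hD, hz]; push_cast; ring
    have hz2 : jacobiSym (D 0) p = 1 ∨ jacobiSym (D 0) p = -1 := jac_pm h2 hpD
    have h7 : a₂ (C (D 0) * f) p = a₂ f p := by
      unfold a₂
      rw [S2_twist f hD h2 h3 hpD, S1_twist f hD]
      rcases hz2 with hz | hz <;> rw [hz] <;> push_cast <;> ring
    rw [h7] at h10
    refine ⟨h1, h2, h3, h4, ?_⟩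
    rcases hz2 with hz | hz
    · rw [hfun 1 hz, ev_one f I₁ I₂ a b a' b' e g x h h1.2]
      rw [h6 1 hz] at h9
      exact ⟨hgood, by simpa using h9, h10⟩
    · rw [hfun (-1) hz, ev_neg f I₁ I₂ a b a' b' e g x h h1.2]
      rw [h6 (-1) hz] at h9
      exact ⟨hgood, by simpa using h9, h10⟩

theorem result (ε : ℝ) (hε : 0 < ε) :
    ∃ C' c : ℝ, 0 < C' ∧ 0 < c ∧ ∃ N₀ : ℕ, ∀ N : ℕ, N₀ ≤ N → ∀ f : ℤ[X],
      (f.natDegree = 5 ∨ f.natDegree = 6) →
      ({D : ℤ | D ≠ 0 ∧ |D| ≤ N ∧ ∃ x : ℕ, (Real.log N) ^ C' ≤ x ∧ (x : ℝ) ≤ (N : ℝ) ^ c ∧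
        ∃ I₁ I₂ : Set ℝ, I₁.OrdConnected ∧ I₂.OrdConnected ∧
        √((boxCount f 1 I₁ I₂ x : ℝ) + boxCount f (-1) I₁ I₂ x) * (x : ℝ) ^ ε <
          |(boxCount (C D * f) 1 I₁ I₂ x : ℝ) -
            ((boxCount f 1 I₁ I₂ x : ℝ) + boxCount f (-1) I₁ I₂ x) / 2|}.ncard : ℝ) ≤
        (N : ℝ) ^ (1 - c) := by
  classical
  obtain ⟨C', c, hC, hc, N₀, h⟩ := law 1 12 ε (by norm_num) hε 4
  refine ⟨C', c, hC, hc, N₀, fun N hN f _ => ?_⟩
  have hmain := h N hN (ℕ × ℕ × ℕ × ℕ × ℕ × ℕ)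
    (fun x => range (2 * (x + 1) + 2) ×ˢ range (2 * (x + 1) + 2) ×ˢ range (2 * (x + 1) + 2) ×ˢ
      range (2 * (x + 1) + 2) ×ˢ range (2 * (x + 1) + 2) ×ˢ range (2 * (x + 1) + 2))
    (fun l => Ev f l.1 l.2.1 l.2.2.1 l.2.2.2.1 l.2.2.2.2.1 l.2.2.2.2.2) ?_
  · rw [Nat.cast_one] at hmain
    refine le_trans ?_ hmain
    refine Nat.cast_le.2 (Set.ncard_le_ncard_of_injOn (fun D : ℤ => fun _ : Fin 1 => D) ?_ ?_ ?_)
    · rintro D ⟨hD0, hDN, x, hx1, hx2, I₁, I₂, h₁, h₂, hlt⟩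
      obtain ⟨a, b, a', b', e, g, ha, hb, ha', hb', he, hg, hag⟩ := exists_agree f I₁ I₂ h₁ h₂ x
      refine ⟨fun _ => ⟨hD0, hDN⟩, x, hx1, hx2, (a, b, a', b', e, g), ?_, ?_⟩
      · simp only [mem_product, mem_range]
        exact ⟨ha, hb, ha', hb', he, hg⟩
      · obtain ⟨h3, h4⟩ := mean_card f I₁ I₂ a b a' b' e g x hag
        have h5 := cnt_eq f (fun _ => D) hD0 I₁ I₂ a b a' b' e g x hag
        simp only
        rw [h4, h5]
        refine lt_of_le_of_lt ?_ hlt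
        exact mul_le_mul_of_nonneg_right (Real.sqrt_le_sqrt h3) (by positivity)
    · intro a _ b _ hab
      exact congrFun hab 0
    · refine Set.Finite.subset (Set.Finite.pi (t := fun _ : Fin 1 => Set.Icc (-(N : ℤ)) N)
        (fun _ => Set.finite_Icc _ _)) ?_
      rintro D ⟨hD, _⟩ j _
      exact abs_le.1 (hD j).2
  · intro x hx
    have hx4 : (4 : ℝ) ≤ x := by exact_mod_cast hx
    have hb : (((range (2 * (x + 1) + 2)).card : ℕ) : ℝ) ≤ (x : ℝ) ^ 2 := by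
      rw [card_range]
      push_cast
      nlinarith
    simp only [card_product, Nat.cast_mul]
    have h12 : (x : ℝ) ^ (12 : ℝ) = (x : ℝ) ^ 2 * ((x : ℝ) ^ 2 * ((x : ℝ) ^ 2 * ((x : ℝ) ^ 2 *
        ((x : ℝ) ^ 2 * (x : ℝ) ^ 2)))) := by
      rw [show (12 : ℝ) = ((12 : ℕ) : ℝ) by norm_num, Real.rpow_natCast]; ring
    rw [h12]
    have h0 : (0 : ℝ) ≤ (((range (2 * (x + 1) + 2)).card : ℕ) : ℝ) := Nat.cast_nonneg _
    gcongr

end Pool.Agent.Results.MP_6dc561_nt.AlmostAllTwists
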