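import Pool.Agent.Q11.ST.Desc2

/-!
# Bessel's inequality for the Sato-Tate averages over extensions

`K` is a number field and `A` an abelian surface over `K` (or any abelian variety); `G = ST(A)` is its
Sato-Tate group, a compact group with Haar probability measure `μ`, and `x_v ∈ G` is an element of the
class of the prime `v` of `K` (any element at the finitely many other primes).  For a finite extension `F`
of `K` and a prime `w` of `F` of residue degree one over the prime `v` of `K` the class of `w` for `A_F` is
in the class of `x_v`; the primes of `F` of residue degree one over `K` have density one.  So the classes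
for `A_F` are a base change of the `x_v` in the sense of the definition `BaseChange` below.

The inequality assumes nothing about the `x_v`.  If the law is known over `K`, the consequence bounds the
failure of the law over all families of pairwise disjoint extensions, with any signatures and Galois
groups, for example for the surfaces over `K = ℚ` of each of the types for which the law is known.
-/

set_option autoImplicit false

namespace Pool.Agent.Results.MP_6dc561_nt.BesselForExtensions

open NumberField IsDedekindDomain Filter Topology MeasureTheory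
open scoped TensorProduct

section

variable {F : Type} [Field F] [NumberField F]

/-- The average of `φ` over the primes of `F` of norm at most `N`. -/
noncomputable def avg (φ : HeightOneSpectrum (𝓞 F) → ℝ) (N : ℕ) : ℝ :=
  (∑ᶠ w : {w : HeightOneSpectrum (𝓞 F) // Ideal.absNorm w.asIdeal ≤ N}, φ w.1) /
    (Nat.card {w : HeightOneSpectrum (𝓞 F) // Ideal.absNorm w.asIdeal ≤ N} : ℝ)

/-- The classes of the `y w` are equidistributed for `μ`. -/
def Equidistributed {G : Type} [Group G] [TopologicalSpace G] [MeasurableSpace G]
    (y : HeightOneSpectrum (𝓞 F) → G) (μ : Measure G) : Prop :=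
  ∀ f : G → ℝ, Continuous f → (∀ g h, f (h * g * h⁻¹) = f g) →
    Tendsto (avg fun w => f (y w)) atTop (𝓝 (∫ g, f g ∂μ))

/-- `y w` is a conjugate of `x v` for all but finitely many primes `w` of `F` of residue degree one over
the prime `v` of `K` below `w`. -/
def BaseChange {K : Type} [Field K] [NumberField K] [Algebra K F] {G : Type} [Group G]
    (x : HeightOneSpectrum (𝓞 K) → G) (y : HeightOneSpectrum (𝓞 F) → G) : Prop :=
  ∃ S : Finset (HeightOneSpectrum (𝓞 F)), ∀ w, w ∉ S → ∀ v : HeightOneSpectrum (𝓞 K),
    w.asIdeal.comap (algebraMap (𝓞 K) (𝓞 F)) = v.asIdeal →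
    Ideal.absNorm w.asIdeal = Ideal.absNorm v.asIdeal → ∃ h : G, y w = h * x v * h⁻¹

end

/-- The number of fields whose product is `F ⊗_K F'`.  For `F' = F` it is the rank of the action of the
absolute Galois group of `K` on the embeddings of `F` over `K`: at least `2` if `F ≠ K`, at most
`[F : K]`, and equal to `2` if all permutations of the embeddings occur and `F ≠ K`. -/
noncomputable def numFields (K F F' : Type) [Field K] [Field F] [Field F'] [Algebra K F]
    [Algebra K F'] : ℕ := Nat.card (MaximalSpectrum (F ⊗[K] F'))

/-- **Bessel's inequality for the averages over extensions.**  Let `K` be a number field, `G` a compact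
group and `x_v ∈ G` for the primes `v` of `K`.  Let `F_1, …, F_n` be finite extensions of `K` such that
`F_i ⊗_K F_j` is a field for `i ≠ j`, put `r_i = numFields(F_i, F_i)`, let `y_i` be a base change of `x` to
`F_i`, and let `f` be a continuous real class function on `G`.  Then for all `η > 0` and all large `N` the
averages over the primes of norm at most `N` satisfy
`avg_K(f)² + ∑ (avg_{F_i}(f) - avg_K(f))² / (r_i - 1) ≤ avg_K(f²) + η`.

Consequently, if the classes of the `x_v` are equidistributed for a probability measure `μ` on `G`, then
for all `η > 0` and all large `N` the sum of the `(avg_{F_i}(f) - ∫ f)² / (r_i - 1)` is at most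
`∫ f² - (∫ f)² + η`. -/
theorem result (K : Type) [Field K] [NumberField K]
    (G : Type) [Group G] [TopologicalSpace G] [CompactSpace G]
    (x : HeightOneSpectrum (𝓞 K) → G) (ι : Type) [Fintype ι] (F : ι → Type)
    [∀ i, Field (F i)] [∀ i, NumberField (F i)] [∀ i, Algebra K (F i)]
    (hF : ∀ i j, i ≠ j → numFields K (F i) (F j) = 1)
    (y : ∀ i, HeightOneSpectrum (𝓞 (F i)) → G) (hy : ∀ i, BaseChange x (y i))
    (f : G → ℝ) (hf : Continuous f) (hf' : ∀ g h, f (h * g * h⁻¹) = f g) (η : ℝ) (hη : 0 < η) :
    (∀ᶠ N in atTop, avg (fun v => f (x v)) N ^ 2 +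
      ∑ i, (avg (fun w => f (y i w)) N - avg (fun v => f (x v)) N) ^ 2 /
        ((numFields K (F i) (F i) : ℝ) - 1) ≤ avg (fun v => f (x v) ^ 2) N + η) ∧
    (∀ [MeasurableSpace G] [BorelSpace G] (μ : Measure G) [IsProbabilityMeasure μ],
      Equidistributed x μ →
      ∀ᶠ N in atTop, ∑ i, (avg (fun w => f (y i w)) N - ∫ g, f g ∂μ) ^ 2 /
        ((numFields K (F i) (F i) : ℝ) - 1) ≤ ∫ g, f g ^ 2 ∂μ - (∫ g, f g ∂μ) ^ 2 + η) := by
  refine ⟨Pool.Agent.Q11.ST.bss hy hf hf' hF hη, ?_⟩
  intro _ _ μ _ hx
  exact Pool.Agent.Q11.ST.stab hx hy hf hf' hF hη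

end Pool.Agent.Results.MP_6dc561_nt.BesselForExtensions
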