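import Pool.Agent.Q14.HV.NF

/-!
# Abelian surfaces `E₁ × E₂` over an arbitrary number field: horizontal means of class functions are
vertical means, with square-root error, for almost all pairs

Let `F` be a number field and let `ω_1, ..., ω_m` generate its ring of integers `𝓞` as an abelian
group.  We consider the abelian surfaces `A = E₁ × E₂`, `E_i : y² = x³ + a_i x + b_i` with
`a_i, b_i ∈ 𝓞`, where the coordinates of `a_1, b_1, a_2, b_2` with respect to the `ω_l` are in a box
of side `X`, in any position.  For almost all of them the Sato-Tate group is `SU(2) × SU(2)`; the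
conjugacy class of the Frobenius at a good place `v` is given by the two normalised traces
`t_i = (q_v + 1 - N_v(E_i)) / q_v^(1/2)`, and the class functions are the functions `Φ(t_1, t_2)`.

1. For almost all pairs of curves in the box the mean of `Φ(t_1, t_2)` over the good places among the
   first `j` places of a sequence differs from the mean of the `j` vertical means (the means over all
   pairs of elliptic curves over the residue fields) by at most `j^(-1/2+δ)`, for all `j ≥ L`
   simultaneously.  The sequence consists of places with distinct residue characteristics, at most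
   `X^(1/3)`; otherwise the places (of any degree) and their order are arbitrary.
2. The vertical means tend to `w` if and only if the means are near `w` for almost all
   pairs, at all scales and along all such sequences.

By the vertical Sato-Tate law for the family of all elliptic curves (Birch, Deligne, Katz), which is
not used and not assumed, the vertical means tend to the integral of `Φ` over `SU(2) × SU(2)`.
The definitions are in `Pool/Agent/Q14/HV/NF.lean` and `Pool/Agent/Q14/HV/Ell.lean`.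
-/

set_option autoImplicit false

namespace Pool.Agent.Results.MP_6dc561_nt.ProductsOverNumberFields

open Pool.Agent.Q14.HV NumberField IsDedekindDomain

/-- **Class functions of `E₁ × E₂` over a number field, for almost all pairs of curves.** -/
theorem result (F : Type) [Field F] [NumberField F] (m : ℕ) (ω : Fin m → 𝓞 F)
    (hω : ∀ x : 𝓞 F, ∃ n : Fin m → ℤ, x = ∑ l, (n l : 𝓞 F) * ω l)
    (Φ : (Fin 2 → ℝ) → ℝ) (hΦ : ∃ B : ℝ, ∀ x, (∀ i, |x i| ≤ 2) → |Φ x| ≤ B) :
    (∀ δ : ℝ, 0 < δ → δ ≤ 1 / 2 →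
      ∃ C : ℝ, ∀ (X L J Q : ℕ) (A : (Fin 2 × Fin 2) × Fin m → ℤ)
        (τ : ℕ → HeightOneSpectrum (𝓞 F)), 1 ≤ X → 1 ≤ L → Q ^ 3 ≤ X → (∀ i < J, chr (τ i) ≤ Q) →
        Set.InjOn (fun i => chr (τ i)) (Set.Iio J) →
        (Set.ncard {n | n ∈ BoxN A X ∧ ∃ j, L ≤ j ∧ j ≤ J ∧ (j : ℝ) ^ (-(1 / 2) + δ) <
            |horizontalV ω Φ τ n j - (∑ i ∈ Finset.range j, verticalV Φ (τ i)) / j|} : ℝ) ≤
          C / (L : ℝ) ^ (δ / 2) * (X : ℝ) ^ (4 * m)) ∧
    ∀ w : ℝ,
      (∀ ε : ℝ, 0 < ε → ∃ p₀ : ℕ, ∀ v : HeightOneSpectrum (𝓞 F), p₀ ≤ chr v →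
        |verticalV Φ v - w| ≤ ε) ↔
      ∀ ε : ℝ, 0 < ε → ∃ C : ℝ, ∀ (X L J Q : ℕ) (A : (Fin 2 × Fin 2) × Fin m → ℤ)
        (τ : ℕ → HeightOneSpectrum (𝓞 F)), 1 ≤ X → 1 ≤ L → Q ^ 3 ≤ X → (∀ i < J, chr (τ i) ≤ Q) →
        Set.InjOn (fun i => chr (τ i)) (Set.Iio J) →
        (Set.ncard {n | n ∈ BoxN A X ∧ ∃ j, L ≤ j ∧ j ≤ J ∧ ε < |horizontalV ω Φ τ n j - w|} : ℝ) ≤
          C / (L : ℝ) ^ ((1 : ℝ) / 8) * (X : ℝ) ^ (4 * m) :=
  ⟨fun δ hδ hδ1 => main1 ω hω Φ hΦ δ hδ hδ1, fun w => main2 ω hω Φ hΦ w⟩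

end Pool.Agent.Results.MP_6dc561_nt.ProductsOverNumberFields
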