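import Pool.Agent.Q12.TP.Base

/-!
# The Sato-Tate averages of abelian surfaces over random number fields

Let `A` be an abelian surface over a number field `F` of degree `d`, `G = ST(A)` its Sato-Tate group and
`x_v ∈ G` an element of the class of the prime `v` of `F` (any element at the primes of bad reduction).
For a monic polynomial `f` of degree `n` over `𝓞_F` and an integer `t` let `L = F(θ)` be the extension of
degree `n` of `F` generated by a root `θ` of `f + t` (for a given `f` it exists for all but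
`O(X^{1/2} log X)` of the integers `|t| ≤ X`, by Hilbert's irreducibility theorem; in general its Galois
closure has group `S_n` and is linearly disjoint from the fields of the endomorphisms of `A`, so that
`A_L` and `A` have the same Sato-Tate group).  At a prime `w` of `L` whose norm is a prime
number the class for `A_L` is the class of `x_v`, where `v` is the prime of `F` below `w`.

The equidistribution of the classes for `A_L` is not known for `n > 4`, even if it is known for `A`; for
instance if `F = ℚ` and `A` is of one of the types for which Johansson and Taylor proved it.  The theorem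
says: for all but at most `X^{1-c}` of the fields with `|t| ≤ X` and ALL class functions `φ`
in a family of `X^c` given ones (continuous or not, for example the indicator function of a
set of classes), the sum of the values at the classes of the primes `w` of `L` with `q_w ≤ T` is the same
as the sum over the primes `v` of `F` with `q_v ≤ T`, up to `T^{1/2+δ}`, for all `T` between a power of
`log X` and a power of `X`; at the same time for any `X^c` abelian surfaces over `F`, uniformly
in all number fields `F` of degree `d` and all `f`.  Dividing by the number of primes one sees that the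
Sato-Tate law for `A_L` and the one for `A` are the same in this range, with square-root error term, as
the conjectures (Sato-Tate and the Riemann hypothesis) predict.

Only the base change property of the classes is used.  The proof is from the starting modules
`Pool.Agent.Y693.RF` and `Pool.Agent.Y693.TP` (abstract theorem `fin0`).
-/

set_option autoImplicit false

namespace Pool.Agent.Results.MP_6dc561_nt.RandomNumberFields

open NumberField IsDedekindDomain

/-- The sum of `φ` over the primes of `K` of norm at most `T`. -/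
noncomputable def primeSum {K : Type} [Field K] [NumberField K] (φ : HeightOneSpectrum (𝓞 K) → ℂ)
    (T : ℕ) : ℂ :=
  ∑ᶠ v ∈ {v : HeightOneSpectrum (𝓞 K) | Ideal.absNorm v.asIdeal ≤ T}, φ v

/-- `y w` is a conjugate of `x v` for all primes `w` of `L` outside `S` whose norm is a prime number, where
`v` is the prime of `F` below `w`. -/
def BaseChange {F : Type} [Field F] [NumberField F] {L : Type} [Field L] [NumberField L] [Algebra F L]
    {G : Type} [Group G] (S : Finset (HeightOneSpectrum (𝓞 L))) (x : HeightOneSpectrum (𝓞 F) → G)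
    (y : HeightOneSpectrum (𝓞 L) → G) : Prop :=
  ∀ w : HeightOneSpectrum (𝓞 L), w ∉ S → (Ideal.absNorm w.asIdeal).Prime →
    ∀ v : HeightOneSpectrum (𝓞 F), w.asIdeal.comap (algebraMap (𝓞 F) (𝓞 L)) = v.asIdeal →
      ∃ h : G, y w = h * x v * h⁻¹

/-- `L = F(θ)` is an extension of `F` of degree `deg f`, and `θ` is a root of `f + t`. -/
def Generates {F : Type} [Field F] [NumberField F] {L : Type} [Field L] [NumberField L] [Algebra F L]
    (f : Polynomial (𝓞 F)) (t : ℤ) (θ : 𝓞 L) : Prop :=
  Polynomial.aeval θ (f + Polynomial.C (t : 𝓞 F)) = 0 ∧ Module.finrank F L = f.natDegree ∧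
    Algebra.adjoin F {(θ : L)} = ⊤

/-- All conjugates of `x` have absolute value at most `R`. -/
def HeightLE {F : Type} [Field F] [NumberField F] (R : ℝ) (x : 𝓞 F) : Prop :=
  ∀ σ : F →+* ℂ, ‖σ (x : F)‖ ≤ R

/-- **The Sato-Tate averages over random number fields.**  Let `d`, `n` be integers, `n ≥ 1`, `B`,
`C₀ ≥ 0` real and `δ > 0`.  There are `c > 0` and `X₀`, such that for all `X ≥ X₀`, all number fields `F`
of degree `d`, all monic polynomials `f` of degree `n` over `𝓞_F` whose coefficients have conjugates of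
size at most `exp((log X)^B)`, and any `m ≤ X^c` groups `G_k` (the Sato-Tate groups of abelian surfaces
`A_k` over `F`) with elements `x_{k,v}` for all primes `v` of `F` and class functions `φ_k` on `G_k`,
`|φ_k| ≤ C₀`, the following holds for all integers `t` with `|t| ≤ X`, with at most `X^{1-c}` exceptions.
Let `L = F(θ)` be any extension of `F` of degree `n` with `f(θ) = - t`.  For all `k`, let `y_w ∈ G_k` be
conjugate to `x_{k,v}` for all primes `w` of `L` of prime norm, outside a finite set `S` (of primes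
above the primes of bad reduction), where `v` is the prime of `F` below `w`.  Then the sums of the
`φ_k(y_w)` over the primes `w` of `L` with `q_w ≤ T` and of the `φ_k(x_{k,v})` over the primes `v` of `F`
with `q_v ≤ T` differ by at most `T^{1/2+δ} + 2 C₀ |S|`, for all `(log X)^{1/c} ≤ T ≤ X^c`. -/
theorem result (d n : ℕ) (_ : 0 < n) (B δ C₀ : ℝ) (_ : 0 < δ) (_ : 0 ≤ C₀) :
    ∃ c : ℝ, 0 < c ∧ ∃ X₀ : ℕ, ∀ X : ℕ, X₀ ≤ X →
      ∀ (F : Type) [Field F] [NumberField F], Module.finrank ℚ F = d →
      ∀ f : Polynomial (𝓞 F), f.Monic → f.natDegree = n →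
      (∀ i, HeightLE (Real.exp ((Real.log X) ^ B)) (f.coeff i)) →
      ∀ m : ℕ, (m : ℝ) ≤ (X : ℝ) ^ c → ∀ (G : Fin m → Type) [∀ k, Group (G k)]
        (x : ∀ k, HeightOneSpectrum (𝓞 F) → G k) (φ : ∀ k, G k → ℂ),
        (∀ k g h, φ k (h * g * h⁻¹) = φ k g) → (∀ k g, ‖φ k g‖ ≤ C₀) →
        ({t : ℤ | |t| ≤ X ∧ ¬ ∀ (L : Type) [Field L] [NumberField L] [Algebra F L] (θ : 𝓞 L),
          Generates f t θ → ∀ (k : Fin m) (S : Finset (HeightOneSpectrum (𝓞 L)))
            (y : HeightOneSpectrum (𝓞 L) → G k), BaseChange S (x k) y →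
            ∀ T : ℕ, (Real.log X) ^ (1 / c) ≤ T → (T : ℝ) ≤ (X : ℝ) ^ c →
              ‖primeSum (fun w => φ k (y w)) T - primeSum (fun v => φ k (x k v)) T‖ ≤
                (T : ℝ) ^ (1 / 2 + δ) + 2 * C₀ * S.card}.ncard : ℝ) ≤ (X : ℝ) ^ (1 - c) := by
  rename_i hn hδ hC
  classical
  obtain ⟨c, hc0, _, X₀, _, h⟩ := Pool.Agent.Q12.TP.base d n hn B δ C₀ hδ hC
  refine ⟨c, hc0, X₀, fun X hX F _ _ hF f hf hfn hcoef m hm G _ x φ hφ hφC => ?_⟩
  have h1 := h X hX F hF f hf hfn hcoef m hm (fun k v => φ k (x k v)) (fun k v => hφC k _)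
  refine le_trans ?_ h1
  have hfin : {t : ℤ | |t| ≤ X ∧ ¬ ∀ (L : Type) [Field L] [NumberField L] [Algebra F L] (θ : 𝓞 L),
      Pool.Agent.Y693.RF.Gen (f + Polynomial.C (t : 𝓞 F)) θ → ∀ k,
        Pool.Agent.Q12.TP.BB δ c C₀ X (fun v => φ k (x k v)) L}.Finite := by
    refine Set.Finite.subset (Set.finite_Icc (-(X : ℤ)) X) fun t ht => ?_
    have := abs_le.1 ht.1
    exact ⟨this.1, this.2⟩
  refine Nat.cast_le.2 (Set.ncard_le_ncard ?_ hfin)
  rintro t ⟨ht1, ht2⟩
  refine ⟨ht1, fun hcon => ht2 ?_⟩
  intro L _ _ _ θ hθ k S y hy T hT1 hT2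
  have hsum : ∀ {K : Type} [Field K] [NumberField K] (ψ : HeightOneSpectrum (𝓞 K) → ℂ),
      primeSum ψ T = ∑ v ∈ Pool.Agent.Y770.EP.FN K T, ψ v := by
    intro K _ _ ψ
    unfold primeSum
    have e1 : {v : HeightOneSpectrum (𝓞 K) | Ideal.absNorm v.asIdeal ≤ T} =
        (Pool.Agent.Y770.EP.FN K T : Finset (HeightOneSpectrum (𝓞 K))) := by
      ext v
      rw [Finset.mem_coe, Pool.Agent.Y770.EP.mem_FN]
      rfl
    rw [e1, finsum_mem_coe_finset]
  obtain ⟨τ, hτ⟩ : ∃ τ : HeightOneSpectrum (𝓞 L) → ℂ, τ = fun w =>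
      if w ∈ S then φ k (x k (Pool.Agent.Y693.RF.und w)) else φ k (y w) := ⟨_, rfl⟩
  have hτC : ∀ w, ‖τ w‖ ≤ C₀ := by
    intro w
    rw [hτ]
    dsimp only
    split_ifs <;> exact hφC k _
  have hτu : ∀ w : HeightOneSpectrum (𝓞 L), (Pool.Agent.H921R2.TatePole.nm w).Prime →
      τ w = φ k (x k (Pool.Agent.Y693.RF.und w)) := by
    intro w hw
    rw [hτ]
    dsimp only
    split_ifs with hS
    · rfl
    · obtain ⟨g, hg⟩ := hy w hS hw (Pool.Agent.Y693.RF.und w) rfl
      rw [hg, hφ]
  have h5 := ((hcon L θ ⟨hθ.1, by rw [hθ.2.1, Polynomial.natDegree_add_C], hθ.2.2⟩ k).2 τ hτC hτu T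
    hT1 hT2).2
  have h6 : ‖∑ w ∈ Pool.Agent.Y770.EP.FN L T, φ k (y w) - ∑ w ∈ Pool.Agent.Y770.EP.FN L T, τ w‖ ≤
      2 * C₀ * S.card := by
    rw [← Finset.sum_sub_distrib]
    have e1 : ∀ w ∈ Pool.Agent.Y770.EP.FN L T, φ k (y w) - τ w =
        if w ∈ S then φ k (y w) - τ w else 0 := by
      intro w _
      split_ifs with hS
      · rfl
      · rw [hτ]
        dsimp only
        rw [if_neg hS, sub_self]
    rw [Finset.sum_congr rfl e1, ← Finset.sum_filter]
    refine (norm_sum_le _ _).trans ?_
    refine (Finset.sum_le_card_nsmul _ _ (2 * C₀) fun w _ => ?_).trans ?_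
    · refine (norm_sub_le _ _).trans ?_
      linarith [hφC k (y w), hτC w]
    · rw [nsmul_eq_mul, mul_comm]
      refine mul_le_mul_of_nonneg_left ?_ (by linarith)
      have : ((Pool.Agent.Y770.EP.FN L T).filter fun w => w ∈ S).card ≤ S.card :=
        Finset.card_le_card fun w hw => (Finset.mem_filter.1 hw).2
      exact_mod_cast this
  rw [hsum, hsum]
  have e2 : ∑ w ∈ Pool.Agent.Y770.EP.FN L T, φ k (y w) -
      ∑ v ∈ Pool.Agent.Y770.EP.FN F T, φ k (x k v) =
      (∑ w ∈ Pool.Agent.Y770.EP.FN L T, τ w - ∑ v ∈ Pool.Agent.Y770.EP.FN F T, φ k (x k v)) +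
      (∑ w ∈ Pool.Agent.Y770.EP.FN L T, φ k (y w) - ∑ w ∈ Pool.Agent.Y770.EP.FN L T, τ w) := by ring
  rw [e2]
  exact (norm_add_le _ _).trans (add_le_add h5 h6)

end Pool.Agent.Results.MP_6dc561_nt.RandomNumberFields
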